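import Pool.Agent.helper41.QD.S1
import Pool.Agent.helper21.KBR3.Chart

/-! Modules C4 and C5: Cauchy–Pompeiu formula and the `∂̄`-equation with compact support. -/

noncomputable section

namespace KBR

open Set MeasureTheory Filter Topology
open scoped ContDiff RealInnerProductSpace

variable {n m : ℕ}

/-- MODULE C4 (`cauchy_pompeiu`): Cauchy–Pompeiu formula. -/
theorem cauchy_pompeiu (g : ℂ → ℂ) (hg : ContDiff ℝ 1 g) (hc : HasCompactSupport g) :
    ∫ ζ : ℂ, ζ⁻¹ * (fderiv ℝ g ζ 1 + Complex.I * fderiv ℝ g ζ Complex.I) =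
      -(2 * Real.pi) * g 0 := by
  rw [← Pool.Agent.helper84.QD.cauchy_pompeiu hg hc 0]
  refine integral_congr_ae (Eventually.of_forall fun ζ => ?_)
  simp only [sub_zero]
  rw [div_eq_mul_inv, mul_comm]

namespace H41C5

lemma integrableOn_inv (R : ℝ) : IntegrableOn (fun ζ : ℂ => ζ⁻¹) (Metric.closedBall 0 R) := by
  refine ⟨(measurable_inv.aestronglyMeasurable), ?_⟩
  rw [hasFiniteIntegral_iff_enorm, ← lintegral_indicator Metric.isClosed_closedBall.measurableSet,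
    ← Complex.lintegral_comp_polarCoord_symm]
  have h1 : ∫⁻ p in polarCoord.target, ENNReal.ofReal p.1 •
      (Metric.closedBall (0 : ℂ) R).indicator (fun ζ => ‖ζ⁻¹‖ₑ) (Complex.polarCoord.symm p) ≤
      ∫⁻ p, (Icc (0 : ℝ) R ×ˢ Icc (-Real.pi) Real.pi).indicator 1 p := by
    rw [← lintegral_indicator polarCoord.open_target.measurableSet]
    refine lintegral_mono fun p => ?_
    by_cases hp : p ∈ polarCoord.target
    · have hp1 : 0 < p.1 := hp.1
      have hp2 := hp.2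
      have hn : ‖Complex.polarCoord.symm p‖ = p.1 := by
        rw [Complex.norm_polarCoord_symm, abs_of_pos hp1]
      rw [indicator_of_mem hp]
      by_cases hR : Complex.polarCoord.symm p ∈ Metric.closedBall (0 : ℂ) R
      · rw [indicator_of_mem hR]
        rw [mem_closedBall_zero_iff, hn] at hR
        have hp3 : p ∈ Icc (0 : ℝ) R ×ˢ Icc (-Real.pi) Real.pi :=
          ⟨⟨hp1.le, hR⟩, ⟨hp2.1.le, hp2.2.le⟩⟩
        rw [indicator_of_mem hp3]
        show ENNReal.ofReal p.1 * ‖(Complex.polarCoord.symm p)⁻¹‖ₑ ≤ 1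
        rw [← ofReal_norm, norm_inv, hn, ← ENNReal.ofReal_mul hp1.le,
          mul_inv_cancel₀ hp1.ne', ENNReal.ofReal_one]
      · rw [indicator_of_notMem hR]
        simp
    · rw [indicator_of_notMem hp]
      exact zero_le
  refine lt_of_le_of_lt h1 ?_
  rw [lintegral_indicator_one (measurableSet_Icc.prod measurableSet_Icc)]
  exact (isCompact_Icc.prod isCompact_Icc).measure_lt_top

/-- the unit vector -/
def e0 (i0 : Fin m) : Cn m := Pi.single i0 1

lemma norm_smul_e0 (i0 : Fin m) (ζ : ℂ) : ‖ζ • e0 i0‖ = ‖ζ‖ := by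
  rw [norm_smul, e0, Pi.norm_single, norm_one, mul_one]

set_option linter.unusedSectionVars false

variable {W : Type*} [NormedAddCommGroup W] [NormedSpace ℂ W]

/-- bound for the support -/
lemma supp_bound (i0 : Fin m) {ψ : Cn m → W} (hc : HasCompactSupport ψ) (z₀ : Cn m) :
    ∃ R : ℝ, ∀ z ∈ Metric.ball z₀ 1, ∀ ζ : ℂ, ζ ∉ Metric.closedBall (0 : ℂ) R →
      ψ (z - ζ • e0 i0) = 0 := by
  obtain ⟨R, hR⟩ := hc.isCompact.isBounded.subset_closedBall 0
  refine ⟨R + ‖z₀‖ + 1, fun z hz ζ hζ => ?_⟩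
  by_contra h
  have h1 := hR (subset_tsupport _ h)
  rw [mem_closedBall_zero_iff] at h1 hζ
  apply hζ
  have h2 : ‖z‖ ≤ ‖z₀‖ + 1 := by
    rw [Metric.mem_ball, dist_eq_norm] at hz
    have := norm_add_le (z - z₀) z₀
    rw [sub_add_cancel] at this
    linarith
  have h3 : ‖ζ • e0 i0‖ ≤ ‖z - ζ • e0 i0‖ + ‖z‖ := by
    have := norm_sub_le z (z - ζ • e0 i0)
    rw [sub_sub_cancel] at this
    linarith
  rw [norm_smul_e0] at h3
  linarith

/-- the bound -/
def bd (C R : ℝ) (ζ : ℂ) : ℝ := (Metric.closedBall (0 : ℂ) R).indicator (fun ζ => C * ‖ζ⁻¹‖) ζ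

lemma integrable_bd (C R : ℝ) : Integrable (bd C R) := by
  have h : IntegrableOn (fun ζ : ℂ => C * ‖ζ⁻¹‖) (Metric.closedBall 0 R) :=
    (integrableOn_inv R).norm.const_mul C
  exact (integrable_indicator_iff Metric.isClosed_closedBall.measurableSet).2 h

lemma le_bd (i0 : Fin m) {ψ : Cn m → W} {C R : ℝ} (hC : ∀ z, ‖ψ z‖ ≤ C)
    {z : Cn m} (hz : ∀ ζ : ℂ, ζ ∉ Metric.closedBall (0 : ℂ) R → ψ (z - ζ • e0 i0) = 0) (ζ : ℂ) :
    ‖ζ⁻¹ • ψ (z - ζ • e0 i0)‖ ≤ bd C R ζ := by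
  by_cases h : ζ ∈ Metric.closedBall (0 : ℂ) R
  · rw [bd, indicator_of_mem h, norm_smul, mul_comm]
    exact mul_le_mul_of_nonneg_right (hC _) (norm_nonneg _)
  · rw [bd, indicator_of_notMem h, hz ζ h, smul_zero, norm_zero]

lemma meas (i0 : Fin m) {ψ : Cn m → W} (hψ : Continuous ψ) (z : Cn m) :
    AEStronglyMeasurable (fun ζ : ℂ => ζ⁻¹ • ψ (z - ζ • e0 i0)) := by
  have h1 : AEStronglyMeasurable (fun ζ : ℂ => ζ⁻¹) := measurable_inv.aestronglyMeasurable
  have h2 : Continuous fun ζ : ℂ => ψ (z - ζ • e0 i0) := by fun_prop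
  exact h1.smul h2.aestronglyMeasurable

lemma bdd {ψ : Cn m → W} (hψ : Continuous ψ) (hc : HasCompactSupport ψ) :
    ∃ C, ∀ z, ‖ψ z‖ ≤ C := by
  obtain ⟨C, hC⟩ := hc.exists_bound_of_continuous hψ
  exact ⟨C, hC⟩

lemma integrable (i0 : Fin m) {ψ : Cn m → W} (hψ : Continuous ψ) (hc : HasCompactSupport ψ)
    (z : Cn m) : Integrable (fun ζ : ℂ => ζ⁻¹ • ψ (z - ζ • e0 i0)) := by
  obtain ⟨C, hC⟩ := bdd hψ hc
  obtain ⟨R, hR⟩ := supp_bound i0 hc z
  exact (integrable_bd C R).mono' (meas i0 hψ z)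
    (Eventually.of_forall fun ζ => le_bd i0 hC (hR z (Metric.mem_ball_self one_pos)) ζ)

lemma continuous_T (i0 : Fin m) {ψ : Cn m → W} (hψ : Continuous ψ) (hc : HasCompactSupport ψ) :
    Continuous fun z => ∫ ζ : ℂ, ζ⁻¹ • ψ (z - ζ • e0 i0) := by
  rw [continuous_iff_continuousAt]
  intro z₀
  obtain ⟨C, hC⟩ := bdd hψ hc
  obtain ⟨R, hR⟩ := supp_bound i0 hc z₀
  apply continuousAt_of_dominated (bound := bd C R)
  · exact Eventually.of_forall fun z => meas i0 hψ z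
  · filter_upwards [Metric.ball_mem_nhds z₀ one_pos] with z hz
    exact Eventually.of_forall fun ζ => le_bd i0 hC (hR z hz) ζ
  · exact integrable_bd C R
  · refine Eventually.of_forall fun ζ => ?_
    have : Continuous fun z => ζ⁻¹ • ψ (z - ζ • e0 i0) := by fun_prop
    exact this.continuousAt

lemma hasFDerivAt_T (i0 : Fin m) {φ : Cn m → ℂ} (hφ : ContDiff ℝ 1 φ) (hc : HasCompactSupport φ)
    (z₀ : Cn m) : HasFDerivAt (fun z => ∫ ζ : ℂ, ζ⁻¹ • φ (z - ζ • e0 i0))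
      (∫ ζ : ℂ, ζ⁻¹ • fderiv ℝ φ (z₀ - ζ • e0 i0)) z₀ := by
  have hd : Continuous (fderiv ℝ φ) := hφ.continuous_fderiv one_ne_zero
  have hdc : HasCompactSupport (fderiv ℝ φ) := hc.fderiv (𝕜 := ℝ)
  obtain ⟨C, hC⟩ := bdd hd hdc
  obtain ⟨R, hR⟩ := supp_bound i0 hdc z₀
  apply hasFDerivAt_integral_of_dominated_of_fderiv_le (bound := bd C R)
    (F := fun z (ζ : ℂ) => ζ⁻¹ • φ (z - ζ • e0 i0))
    (F' := fun z (ζ : ℂ) => ζ⁻¹ • fderiv ℝ φ (z - ζ • e0 i0)) (Metric.ball_mem_nhds z₀ one_pos)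
  · exact Eventually.of_forall fun z => meas i0 hφ.continuous z
  · exact integrable i0 hφ.continuous hc z₀
  · exact meas i0 hd z₀
  · refine Eventually.of_forall fun ζ z hz => le_bd i0 hC (hR z hz) ζ
  · exact integrable_bd C R
  · refine Eventually.of_forall fun ζ z _ => ?_
    have h1 : HasFDerivAt φ (fderiv ℝ φ (z - ζ • e0 i0)) (z - ζ • e0 i0) :=
      (hφ.differentiable one_ne_zero _).hasFDerivAt
    have h2 : HasFDerivAt (fun z : Cn m => z - ζ • e0 i0) (ContinuousLinearMap.id ℝ (Cn m)) z :=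
      (hasFDerivAt_id z).sub_const _
    have h3 := (h1.comp z h2).const_smul ζ⁻¹
    exact h3

end H41C5

open H41C5 in
/-- MODULE C5 (`dbar_solve`): the `∂̄`-equation with compactly supported data. -/
theorem dbar_solve (i0 : Fin m) (f : Cn m → Cn m →L[ℝ] ℂ) (hf : ContDiff ℝ 1 f)
    (hc : HasCompactSupport f)
    (hcl : ∀ z v w, fderiv ℝ f z v w + Complex.I * fderiv ℝ f z (Complex.I • v) w =
      fderiv ℝ f z w v + Complex.I * fderiv ℝ f z (Complex.I • w) v) :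
    ∃ w : Cn m → ℂ, ContDiff ℝ 1 w ∧
      (∀ z v, fderiv ℝ w z v + Complex.I * fderiv ℝ w z (Complex.I • v) = f z v) ∧
      (∀ z, (∀ ζ : ℂ, f (z + ζ • Pi.single i0 1) = 0) → w z = 0) := by
  set φ : Cn m → ℂ := fun z => f z (e0 i0) with hφdef
  have hφ : ContDiff ℝ 1 φ := hf.clm_apply contDiff_const
  have hφc : HasCompactSupport φ := hc.comp_left (g := fun L : Cn m →L[ℝ] ℂ => L (e0 i0)) rfl
  have hdφ : ∀ z v, fderiv ℝ φ z v = fderiv ℝ f z v (e0 i0) := by
    intro z v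
    have h1 : HasFDerivAt f (fderiv ℝ f z) z := (hf.differentiable one_ne_zero _).hasFDerivAt
    have h2 := (h1.clm_apply (hasFDerivAt_const (e0 i0) z)).fderiv
    rw [hφdef, h2]
    simp
  set w : Cn m → ℂ := fun z => (2 * Real.pi : ℂ)⁻¹ • ∫ ζ : ℂ, ζ⁻¹ • φ (z - ζ • e0 i0) with hw
  have hwd : ∀ z, HasFDerivAt w ((2 * Real.pi : ℂ)⁻¹ •
      ∫ ζ : ℂ, ζ⁻¹ • fderiv ℝ φ (z - ζ • e0 i0)) z := fun z =>
    HasFDerivAt.fun_const_smul (hasFDerivAt_T i0 hφ hφc z) ((2 * Real.pi : ℂ)⁻¹)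
  have hd : Continuous (fderiv ℝ φ) := hφ.continuous_fderiv one_ne_zero
  have hdc : HasCompactSupport (fderiv ℝ φ) := hφc.fderiv (𝕜 := ℝ)
  refine ⟨w, ?_, ?_, ?_⟩
  · rw [contDiff_one_iff_fderiv]
    refine ⟨fun z => (hwd z).differentiableAt, ?_⟩
    have : fderiv ℝ w = fun z => (2 * Real.pi : ℂ)⁻¹ •
        ∫ ζ : ℂ, ζ⁻¹ • fderiv ℝ φ (z - ζ • e0 i0) := funext fun z => (hwd z).fderiv
    rw [this]
    exact (continuous_T i0 hd hdc).const_smul ((2 * Real.pi : ℂ)⁻¹)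
  · intro z v
    have happ : ∀ u, fderiv ℝ w z u = (2 * Real.pi : ℂ)⁻¹ *
        ∫ ζ : ℂ, ζ⁻¹ * fderiv ℝ φ (z - ζ • e0 i0) u := by
      intro u
      rw [(hwd z).fderiv, _root_.smul_apply,
        ContinuousLinearMap.integral_apply (integrable i0 hd hdc z)]
      simp only [_root_.smul_apply, smul_eq_mul]
    have hint : ∀ u, Integrable fun ζ : ℂ => ζ⁻¹ * fderiv ℝ φ (z - ζ • e0 i0) u := by
      intro u
      have h1 := (integrable i0 hd hdc z).apply_continuousLinearMap u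
      simpa only [_root_.smul_apply, smul_eq_mul] using h1
    rw [happ, happ]
    set g : ℂ → ℂ := fun ζ => f (z + ζ • e0 i0) v with hg
    have hline : ContDiff ℝ 1 fun ζ : ℂ => z + ζ • e0 i0 := by fun_prop
    have hgd : ContDiff ℝ 1 g := (hf.comp hline).clm_apply contDiff_const
    have hgc : HasCompactSupport g := by
      obtain ⟨R, hR⟩ := supp_bound i0 hc z
      refine HasCompactSupport.intro (isCompact_closedBall (0 : ℂ) R) fun ζ hζ => ?_
      have h1 := hR z (Metric.mem_ball_self one_pos) (-ζ) (by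
        rw [mem_closedBall_zero_iff, norm_neg]
        rwa [mem_closedBall_zero_iff] at hζ)
      rw [neg_smul, sub_neg_eq_add] at h1
      rw [hg]
      simp only [h1, _root_.zero_apply]
    have hdg : ∀ ζ u : ℂ, fderiv ℝ g ζ u = fderiv ℝ f (z + ζ • e0 i0) (u • e0 i0) v := by
      intro ζ u
      have h1 : HasFDerivAt f (fderiv ℝ f (z + ζ • e0 i0)) (z + ζ • e0 i0) :=
        (hf.differentiable one_ne_zero _).hasFDerivAt
      have h2 : HasFDerivAt (fun ζ : ℂ => z + ζ • e0 i0)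
          ((ContinuousLinearMap.id ℝ ℂ).smulRight (e0 i0)) ζ := by
        have := ((ContinuousLinearMap.id ℝ ℂ).smulRight (e0 i0)).hasFDerivAt (x := ζ)
        exact this.const_add z
      have h3 := ((h1.comp ζ h2).clm_apply (hasFDerivAt_const v ζ)).fderiv
      rw [hg]
      have h4 : (fun ζ : ℂ => f (z + ζ • e0 i0) v) =
        fun y => (f ∘ fun ζ : ℂ => z + ζ • e0 i0) y v := rfl
      rw [h4, h3]
      simp
    have hcp := cauchy_pompeiu g hgd hgc
    have hg0 : g 0 = f z v := by simp [hg]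
    rw [hg0] at hcp
    have h5 : Complex.I * ((2 * Real.pi : ℂ)⁻¹ *
        ∫ ζ : ℂ, ζ⁻¹ * fderiv ℝ φ (z - ζ • e0 i0) (Complex.I • v)) =
        (2 * Real.pi : ℂ)⁻¹ *
        ∫ ζ : ℂ, Complex.I * (ζ⁻¹ * fderiv ℝ φ (z - ζ • e0 i0) (Complex.I • v)) := by
      rw [integral_const_mul]
      ring
    rw [h5, ← mul_add, ← integral_add (hint v) ((hint (Complex.I • v)).const_mul _)]
    have h6 : ∫ ζ : ℂ, (ζ⁻¹ * fderiv ℝ φ (z - ζ • e0 i0) v +
        Complex.I * (ζ⁻¹ * fderiv ℝ φ (z - ζ • e0 i0) (Complex.I • v))) =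
        ∫ ζ : ℂ, - (ζ⁻¹ * (fderiv ℝ g ζ 1 + Complex.I * fderiv ℝ g ζ Complex.I)) := by
      rw [← integral_neg_eq_self]
      refine integral_congr_ae (Eventually.of_forall fun ζ => ?_)
      simp only
      rw [hdφ, hdφ, hdg, hdg, neg_smul, sub_neg_eq_add, one_smul, inv_neg]
      have := hcl (z + ζ • e0 i0) v (e0 i0)
      linear_combination (-ζ⁻¹) * this
    rw [h6, integral_neg, hcp]
    have hpi : (2 * Real.pi : ℂ) ≠ 0 := by
      have := Real.pi_ne_zero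
      simp [this]
    field_simp
  · intro z hz
    have h1 : ∀ ζ : ℂ, φ (z - ζ • e0 i0) = 0 := by
      intro ζ
      have h2 := hz (-ζ)
      rw [neg_smul, ← sub_eq_add_neg] at h2
      have h3 : f (z - ζ • e0 i0) = 0 := h2
      rw [hφdef]
      simp only [h3, _root_.zero_apply]
    rw [hw]
    simp only [h1, smul_zero, integral_zero]

end KBR
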